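import Pool.Agent.W770.PC.Stms

set_option autoImplicit false

/-! Project PC (helper770), part PC-osc: three integrations by parts in one variable. -/

open MeasureTheory Set Filter Topology
open scoped ENNReal NNReal

namespace Pool.Agent.W723.PC

open Pool.Agent.W770.PC

lemma osc_triv (f : ℝ → ℂ) (c s M : ℝ) (hs : 0 < s) (h0 : ∀ u, s < |u - c| → f u = 0)
    (hM : ∀ u, ‖f u‖ ≤ M) : ‖∫ u, f u‖ ≤ 2 * s * M := by
  have h1 : ∫ u, f u = ∫ u in Icc (c - s) (c + s), f u := by
    symm
    apply setIntegral_eq_integral_of_forall_compl_eq_zero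
    intro u hu
    apply h0
    rw [mem_Icc, not_and_or] at hu
    rcases hu with hu | hu
    · have : u - c < -s := by
        push Not at hu
        linarith
      rw [abs_of_neg (by linarith)]
      linarith
    · have : s < u - c := by
        push Not at hu
        linarith
      rw [abs_of_pos (by linarith)]
      exact this
  have h2 := norm_setIntegral_le_of_norm_le_const (μ := volume) (s := Icc (c - s) (c + s))
    (f := f) (C := M) (by rw [Real.volume_Icc]; exact ENNReal.ofReal_lt_top) (fun u _ => hM u)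
  rw [h1]
  refine h2.trans (le_of_eq ?_)
  rw [Measure.real, Real.volume_Icc, ENNReal.toReal_ofReal (by linarith)]
  ring

lemma ee_norm (x : ℝ) : ‖ee x‖ = 1 := by
  unfold ee
  exact Complex.norm_exp_ofReal_mul_I x

lemma ee_deriv (η u : ℝ) : HasDerivAt (fun u : ℝ => ee (η * u))
    (((η : ℂ) * Complex.I) * ee (η * u)) u := by
  unfold ee
  have h1 : HasDerivAt (fun u : ℝ => (((η * u : ℝ) : ℂ)) * Complex.I) ((η : ℂ) * Complex.I) u := by
    have h2 : HasDerivAt (fun u : ℝ => η * u) (η * 1) u := (hasDerivAt_id u).const_mul η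
    have h3 := h2.ofReal_comp.mul_const Complex.I
    rw [mul_one] at h3
    exact h3
  have h4 := h1.cexp
  rw [mul_comm] at h4
  exact h4

lemma ee_cont (η : ℝ) : Continuous (fun u : ℝ => ee (η * u)) := by
  unfold ee
  fun_prop

/-- smooth functions supported in the interval -/
structure OB (c s : ℝ) (b : ℝ → ℂ) : Prop where
  sm : ContDiff ℝ (⊤ : ℕ∞) b
  z : ∀ u, s < |u - c| → b u = 0

lemma OB.der {c s : ℝ} {b : ℝ → ℂ} (h : OB c s b) : OB c s (deriv b) := by
  constructor
  · exact (contDiff_infty_iff_deriv.mp h.sm).2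
  · intro u hu
    have hop : IsOpen {u : ℝ | s < |u - c|} := isOpen_lt continuous_const (by fun_prop)
    have h1 : b =ᶠ[𝓝 u] fun _ => (0 : ℂ) := by
      filter_upwards [hop.mem_nhds hu] with v hv
      exact h.z v hv
    rw [h1.deriv_eq, deriv_const]

lemma OB.cs {c s : ℝ} {b : ℝ → ℂ} (h : OB c s b) : HasCompactSupport b := by
  apply HasCompactSupport.intro (isCompact_Icc (a := c - s) (b := c + s))
  intro u hu
  apply h.z
  rw [mem_Icc, not_and_or] at hu
  by_contra hc
  push Not at hc
  have := abs_le.mp hc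
  rcases hu with hu | hu
  · exact hu (by linarith)
  · exact hu (by linarith)

lemma OB.parts {c s : ℝ} {b : ℝ → ℂ} (h : OB c s b) (η : ℝ) :
    |η| * ‖∫ u, b u * ee (η * u)‖ = ‖∫ u, deriv b u * ee (η * u)‖ := by
  have hc := h.sm.continuous
  have hc' := h.der.sm.continuous
  have hd : ∀ u, HasDerivAt b (deriv b u) u := fun u =>
    (h.sm.differentiable (by simp)).differentiableAt.hasDerivAt
  have he := ee_cont η
  have hi1 : Integrable (b * fun u => ((η : ℂ) * Complex.I) * ee (η * u)) := by
    apply Continuous.integrable_of_hasCompactSupport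
    · exact hc.mul (he.const_mul _)
    · exact h.cs.mul_right
  have hi2 : Integrable (deriv b * fun u => ee (η * u)) := by
    apply Continuous.integrable_of_hasCompactSupport
    · exact hc'.mul he
    · exact h.der.cs.mul_right
  have hi3 : Integrable (b * fun u => ee (η * u)) := by
    apply Continuous.integrable_of_hasCompactSupport
    · exact hc.mul he
    · exact h.cs.mul_right
  have key := integral_mul_deriv_eq_deriv_mul_of_integrable (fun u _ => hd u)
    (fun u _ => ee_deriv η u) hi1 hi2 hi3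
  have e1 : ∫ u, b u * (((η : ℂ) * Complex.I) * ee (η * u)) =
      ((η : ℂ) * Complex.I) * ∫ u, b u * ee (η * u) := by
    rw [← integral_const_mul]
    congr 1
    funext u
    ring
  rw [e1] at key
  have e2 := congrArg norm key
  rw [norm_mul, norm_neg, norm_mul, Complex.norm_I, mul_one, Complex.norm_real,
    Real.norm_eq_abs] at e2
  exact e2

theorem osc_thm : S_osc := by
  intro b c s B hb hs hz hB hB3 η
  have h0 : OB c s b := ⟨hb, hz⟩
  have h1 := h0.der
  have h2 := h1.der
  have h3 := h2.der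
  have hB0 : 0 ≤ B := (norm_nonneg _).trans (hB 0)
  have e3 : iteratedDeriv 3 b = deriv (deriv (deriv b)) := by
    rw [iteratedDeriv_succ, iteratedDeriv_succ, iteratedDeriv_one]
  rw [e3] at hB3
  have t0 : ‖∫ u, b u * ee (η * u)‖ ≤ 2 * s * B := by
    apply osc_triv _ c s B hs
    · intro u hu
      rw [hz u hu, zero_mul]
    · intro u
      rw [norm_mul, ee_norm, mul_one]
      exact hB u
  have t3 : ‖∫ u, deriv (deriv (deriv b)) u * ee (η * u)‖ ≤ 2 * s * (B / s ^ 3) := by
    apply osc_triv _ c s _ hs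
    · intro u hu
      rw [h3.z u hu, zero_mul]
    · intro u
      rw [norm_mul, ee_norm, mul_one]
      exact hB3 u
  rw [← h2.parts η, ← h1.parts η, ← h0.parts η] at t3
  set I := ‖∫ u, b u * ee (η * u)‖ with hI
  have hI0 : 0 ≤ I := norm_nonneg _
  have hη : 0 ≤ |η| := abs_nonneg η
  have hs3 : 0 < s ^ 3 := by positivity
  have t4 : (s * |η|) ^ 3 * I ≤ 2 * s * B := by
    have := mul_le_mul_of_nonneg_left t3 hs3.le
    have e : s ^ 3 * (2 * s * (B / s ^ 3)) = 2 * s * B := by
      field_simp
    rw [e] at this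
    calc (s * |η|) ^ 3 * I = s ^ 3 * (|η| * (|η| * (|η| * I))) := by ring
      _ ≤ _ := this
  have hx : 0 ≤ s * |η| := by positivity
  set x := s * |η| with hxdef
  have hpos : 0 < (1 + x) ^ 3 := by positivity
  rw [← div_eq_mul_inv, le_div_iff₀ hpos]
  rcases le_total x 1 with h | h
  · have h8 : (1 + x) ^ 3 ≤ 8 := by
      have : (1 + x) ^ 3 ≤ (2 : ℝ) ^ 3 := pow_le_pow_left₀ (by linarith) (by linarith) 3
      linarith
    have := mul_le_mul_of_nonneg_left h8 hI0
    nlinarith
  · have h8 : (1 + x) ^ 3 ≤ 8 * x ^ 3 := by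
      have : (1 + x) ^ 3 ≤ (2 * x) ^ 3 := pow_le_pow_left₀ (by linarith) (by linarith) 3
      calc (1 + x) ^ 3 ≤ (2 * x) ^ 3 := this
        _ = 8 * x ^ 3 := by ring
    have := mul_le_mul_of_nonneg_left h8 hI0
    nlinarith

end Pool.Agent.W723.PC
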